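import Pool.Agent.K3h44.RQ.Stm2

set_option autoImplicit false

/-!
# Project RQ, brick UW: from the cyclotomic unit to all units
-/

namespace Pool.Agent.K3h77.RQ

open NumberField IsDedekindDomain Pool.Agent.K3h44.RQ

theorem isRadical_of {R : Type*} [CommRing R] [IsDedekindDomain R] (x : R)
    (h : ∀ P : Ideal R, x ∈ P ^ 2 → P = ⊤) : (Ideal.span {x}).IsRadical := by
  have hsq : Squarefree (Ideal.span {x}) := by
    intro P hP
    have h1 : x ∈ P ^ 2 := by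
      rw [← Ideal.span_singleton_le_iff_mem, ← Ideal.dvd_iff_le, pow_two]
      exact hP
    rw [h P h1, ← Ideal.one_eq_top]
    exact isUnit_one
  rintro y ⟨n, hn⟩
  have h1 : Ideal.span {x} ∣ (Ideal.span {y}) ^ n := by
    rw [Ideal.dvd_iff_le, Ideal.span_singleton_pow, Ideal.span_singleton_le_iff_mem]
    exact hn
  have h2 := hsq.isRadical n _ h1
  rw [Ideal.dvd_iff_le, Ideal.span_singleton_le_iff_mem] at h2
  exact h2

theorem absNorm_p {K : Type} [Field K] [NumberField K] (h2 : Module.finrank ℚ K = 2) (p : ℕ) :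
    Ideal.absNorm (Ideal.span {(p : 𝓞 K)}) = p ^ 2 := by
  rw [Ideal.absNorm_span_singleton]
  have h1 : (p : 𝓞 K) = algebraMap ℤ (𝓞 K) (p : ℤ) := by simp
  rw [h1, Algebra.norm_algebraMap, RingOfIntegers.rank, h2, Int.natAbs_pow]
  simp

theorem pow_sub_mem {K : Type} [Field K] [NumberField K] (h2 : Module.finrank ℚ K = 2) {p : ℕ}
    (hp : p.Prime) (Q : Ideal (𝓞 K)) (hQ : Q.IsPrime) (hpQ : (p : 𝓞 K) ∈ Q) (x : 𝓞 K) :
    x ^ (p ^ 2) - x ∈ Q := by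
  have h0 : Q ≠ ⊥ := by
    rintro rfl
    rw [Ideal.mem_bot] at hpQ
    exact hp.ne_zero (by exact_mod_cast hpQ)
  have hmax : Q.IsMaximal := hQ.isMaximal h0
  have hd : Ideal.absNorm Q ∣ p ^ 2 := by
    rw [← absNorm_p h2 p]
    apply Ideal.absNorm_dvd_absNorm_of_le
    rw [Ideal.span_singleton_le_iff_mem]
    exact hpQ
  obtain ⟨i, hi, hN⟩ := (Nat.dvd_prime_pow hp).1 hd
  have hi0 : i ≠ 0 := by
    rintro rfl
    rw [pow_zero, Ideal.absNorm_eq_one_iff] at hN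
    exact hQ.ne_top hN
  let _ : Field (𝓞 K ⧸ Q) := Ideal.Quotient.field Q
  have hc : Nat.card (𝓞 K ⧸ Q) = p ^ i := by
    rw [← hN, Ideal.absNorm_apply, Submodule.cardQuot_apply]
  have : Finite (𝓞 K ⧸ Q) := Nat.finite_of_card_ne_zero (by
    rw [hc]
    exact pow_ne_zero _ hp.ne_zero)
  let _ : Fintype (𝓞 K ⧸ Q) := Fintype.ofFinite _
  have hc2 : Fintype.card (𝓞 K ⧸ Q) = p ^ i := by
    rw [← Nat.card_eq_fintype_card, hc]
  have hx : ∀ y : 𝓞 K ⧸ Q, y ^ (p ^ 2) = y := by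
    intro y
    have h3 : y ^ (p ^ i) = y := by
      rw [← hc2]
      exact FiniteField.pow_card y
    have h4 : i = 1 ∨ i = 2 := by omega
    rcases h4 with rfl | rfl
    · rw [pow_one] at h3
      rw [pow_two, pow_mul, h3, h3]
    · exact h3
  rw [← Ideal.Quotient.eq_zero_iff_mem, map_sub, map_pow, hx, sub_self]

theorem dvd_pow_sub {K : Type} [Field K] [NumberField K] (h2 : Module.finrank ℚ K = 2) {p : ℕ}
    (hp : p.Prime) (h : ∀ P : Ideal (𝓞 K), (p : 𝓞 K) ∈ P ^ 2 → P = ⊤) (x : 𝓞 K) :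
    (p : 𝓞 K) ∣ x ^ (p ^ 2) - x := by
  rw [← Ideal.mem_span_singleton, ← (isRadical_of (p : 𝓞 K) h).radical, Ideal.radical_eq_sInf,
    Ideal.mem_sInf]
  rintro Q ⟨hQ1, hQ2⟩
  exact pow_sub_mem h2 hp Q hQ2 (hQ1 (Ideal.mem_span_singleton_self _)) x

theorem t_UW : S_UW := by
  intro p hp hp2 K _ _ h2 h η I hI hη hu u
  have hpp : 0 < p ^ 2 := pow_pos hp.pos 2
  -- cancel a unit
  have canc : ∀ (w : (𝓞 K)ˣ) (a : 𝓞 K), a ∣ (w : 𝓞 K) ^ (p ^ 2) - w →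
      a ∣ (w : 𝓞 K) ^ (p ^ 2 - 1) - 1 := by
    intro w a hw
    have h3 : (w : 𝓞 K) ^ (p ^ 2) - w = ((w : 𝓞 K) ^ (p ^ 2 - 1) - 1) * w := by
      rw [sub_mul, one_mul, ← pow_succ, Nat.sub_add_cancel hpp]
    rw [h3] at hw
    exact (w.dvd_mul_right).1 hw
  obtain ⟨a, ha⟩ := canc u _ (dvd_pow_sub h2 hp h (u : 𝓞 K))
  -- the unit group modulo `p ^ 2`
  set R := 𝓞 K ⧸ Ideal.span {(p : 𝓞 K) ^ 2} with hR
  let f : 𝓞 K →+* R := Ideal.Quotient.mk _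
  have hf : ∀ x : 𝓞 K, f x = 0 ↔ (p : 𝓞 K) ^ 2 ∣ x := by
    intro x
    rw [Ideal.Quotient.eq_zero_iff_mem, Ideal.mem_span_singleton]
  let g : (𝓞 K)ˣ →* Rˣ := Units.map (f : 𝓞 K →* R)
  have hg : g η ^ (p ^ 2 - 1) = 1 := by
    apply Units.ext
    have h3 := (hf _).2 (canc η _ hη)
    rw [map_sub, map_pow, map_one, sub_eq_zero] at h3
    simpa [g] using h3
  have hg1 : g (-1) ^ (p ^ 2 - 1) = 1 := by
    have h4 : Even (p ^ 2 - 1) := by
      have h5 : Odd (p ^ 2) := (hp.odd_of_ne_two hp2).pow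
      obtain ⟨t, ht⟩ := h5
      exact ⟨t, by omega⟩
    rw [← map_pow, h4.neg_one_pow, map_one]
  have hgu : (g u ^ (p ^ 2 - 1)) ^ I = 1 := by
    obtain ⟨k, hk⟩ := hu u
    have h4 : g u ^ I = g η ^ k ∨ g u ^ I = g (-1) * g η ^ k := by
      rcases hk with hk | hk
      · left
        rw [← map_pow, hk, map_zpow]
      · right
        rw [← map_pow, hk, ← map_zpow, ← map_mul, neg_one_mul]
    rw [← pow_mul, mul_comm, pow_mul]
    rcases h4 with h4 | h4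
    · rw [h4, ← zpow_natCast, ← zpow_mul, mul_comm, zpow_mul, zpow_natCast, hg, one_zpow]
    · rw [h4, mul_pow, hg1, one_mul, ← zpow_natCast, ← zpow_mul, mul_comm, zpow_mul, zpow_natCast,
        hg, one_zpow]
  have h5 : (p : 𝓞 K) ^ 2 ∣ ((u : 𝓞 K) ^ (p ^ 2 - 1)) ^ I - 1 := by
    rw [← hf, map_sub, map_pow, map_pow, map_one, sub_eq_zero]
    have := congrArg (fun w : Rˣ => (w : R)) hgu
    simpa [g] using this
  -- binomial
  have hv : (u : 𝓞 K) ^ (p ^ 2 - 1) = 1 + (p : 𝓞 K) * a := by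
    rw [← ha]; ring
  have hbin : ∀ n : ℕ, (p : 𝓞 K) ^ 2 ∣ (1 + (p : 𝓞 K) * a) ^ n - (1 + n * ((p : 𝓞 K) * a)) := by
    intro n
    induction n with
    | zero => simp
    | succ n ih =>
      obtain ⟨b, hb⟩ := ih
      refine ⟨b * (1 + p * a) + n * a ^ 2, ?_⟩
      have h6 : (1 + (p : 𝓞 K) * a) ^ n = (1 + n * ((p : 𝓞 K) * a)) + (p : 𝓞 K) ^ 2 * b := by
        rw [← hb]; ring
      rw [pow_succ, h6]
      push_cast
      ring
  rw [hv] at h5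
  have h6 : (p : 𝓞 K) ^ 2 ∣ (I : 𝓞 K) * ((p : 𝓞 K) * a) := by
    have := dvd_sub h5 (hbin I)
    have h7 : (1 + (p : 𝓞 K) * a) ^ I - 1 - ((1 + (p : 𝓞 K) * a) ^ I - (1 + I * ((p : 𝓞 K) * a))) =
      (I : 𝓞 K) * ((p : 𝓞 K) * a) := by ring
    rwa [h7] at this
  have hp0 : (p : 𝓞 K) ≠ 0 := by exact_mod_cast hp.ne_zero
  have h7 : (p : 𝓞 K) ∣ (I : 𝓞 K) * a := by
    obtain ⟨b, hb⟩ := h6
    refine ⟨b, mul_left_cancel₀ hp0 ?_⟩
    linear_combination hb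
  have h8 : (p : 𝓞 K) ∣ a := by
    have hc : IsCoprime (p : ℤ) (I : ℤ) := by
      rw [Nat.isCoprime_iff_coprime]
      exact (Nat.Prime.coprime_iff_not_dvd hp).2 hI
    obtain ⟨x, y, hxy⟩ := hc
    have hxy' : (x : 𝓞 K) * p + (y : 𝓞 K) * I = 1 := by exact_mod_cast congrArg (Int.cast : ℤ → 𝓞 K) hxy
    obtain ⟨b, hb⟩ := h7
    refine ⟨x * a + y * b, ?_⟩
    linear_combination (-a) * hxy' + (y : 𝓞 K) * hb
  obtain ⟨b, hb⟩ := h8
  refine ⟨b, ?_⟩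
  rw [ha, hb]
  ring

end Pool.Agent.K3h77.RQ
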